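import Pool.Agent.H91FL.Dnf

/-!
# Which posets order-embed into free lattices? A characterisation for all cardinalities

A poset `P` embeds into a free lattice iff one can attach to the elements of `P` finite families
of finite sets (monotone disjunctive normal forms) so that `p ≤ q` means that every member of the
family of `p` contains a member of the family of `q`.
-/

namespace Pool.Agent.Results.MP_65a0e0_al.AllPosets

open H91FL

universe u

theorem result (P : Type u) [PartialOrder P] :
    (∃ X : Type u, Nonempty (P ↪o FL X)) ↔
      ∃ (X : Type u) (D : P → Finset (Finset X)), ∀ p q : P,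
        p ≤ q ↔ ∀ F ∈ D p, ∃ G ∈ D q, G ⊆ F :=
  embeds_iff_dnf P

end Pool.Agent.Results.MP_65a0e0_al.AllPosets
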