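import Pool.Agent.H91FL.Asm

/-!
# Posets in free lattices: point-finite rectangles, cardinality at most `ℵ₁`

If `P` embeds into a free lattice, then the order relation of `P` is the union of a point-finite
family of rectangles (`FinRep`); for posets of cardinality at most `ℵ₁` the converse holds.
-/

namespace Pool.Agent.Results.MP_65a0e0_al.Characterisation

open H91FL Cardinal

universe u

theorem result (P : Type u) [PartialOrder P] :
    (EmbedsFree P → FinRep P) ∧ (#P ≤ ℵ₁ → (EmbedsFree P ↔ FinRep P)) :=
  ⟨finRep_of_embeds P, fun hP => embeds_iff_finRep P hP⟩

end Pool.Agent.Results.MP_65a0e0_al.Characterisation
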