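import Pool.Agent.H91FL.Asm
import Pool.Agent.H91FL.PWWFNb

/-!
# Embeddability into free lattices is sensitive to set theory

An explicit poset `PW` of cardinality continuum (and of height two), whose order relation is a
point-finite union of rectangles, embeds into a free lattice under CH, but does not embed into a
free lattice if there is an uncountable Q-set of reals.
-/

namespace Pool.Agent.Results.MP_65a0e0_al.ContinuumPoset

open H91FL Cardinal

theorem result :
    FinRep PW ∧
    ((𝔠 : Cardinal.{0}) = ℵ₁ → EmbedsFree PW) ∧
    (EmbedsFree PW → WFN) ∧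
    (QSet → ¬ EmbedsFree PW) :=
  ⟨t_PWREP, PW_CH, fun h => t_PWWFN ((t_EQ PW).1 h),
    fun hq h => t_QSET t_BERN hq (t_PWWFN ((t_EQ PW).1 h))⟩

end Pool.Agent.Results.MP_65a0e0_al.ContinuumPoset
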