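import Pool.Agent.H91FL.Asm

/-!
# Posets in free lattices and the Freese–Nation property

A poset embeds into a free lattice iff it embeds into a poset with the Freese–Nation property.
-/

namespace Pool.Agent.Results.MP_65a0e0_al.FreeseNation

open H91FL

universe u

theorem result (P : Type u) [PartialOrder P] :
    EmbedsFree P ↔ ∃ (Q : Type u) (_ : PartialOrder Q), FNProp Q ∧ Nonempty (P ↪o Q) :=
  embeds_iff_FN P

end Pool.Agent.Results.MP_65a0e0_al.FreeseNation
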